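import Pool.Agent.Helper77.RL.Goals3
import Pool.Agent.Helper40.RS.Gal
import Pool.Agent.Helper90.RP.SUB
import Pool.Agent.Helper95.RL.SUB

/-!
# Project RL: the splitting and the ramification in `L`, given the Kummer data
-/

namespace Pool.Agent.Helper96.RL

open NumberField Polynomial Module IsDedekindDomain Pool.Agent.Helper51.SigLeo
open Pool.Agent.Helper51.RP
open Pool.Agent.Helper40.RS (bel conj_of_bel)
open Pool.Agent.Helper90.RP (exists_pull)
open Pool.Agent.Helper95.RL (exists_below above_pull)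
open Pool.Agent.Helper77.RL (Kum X_INE X_SPL X_UNR)

section prim

variable {M M' : Type} [Field M] [NumberField M] [Field M'] [NumberField M'] [Algebra M M']

theorem mem_iff' (U : HeightOneSpectrum (𝓞 M')) (y : 𝓞 M) :
    algebraMap (𝓞 M) (𝓞 M') y ∈ U.asIdeal ↔ U.valuation M' (algebraMap M M' (y : M)) < 1 := by
  have e2 : algebraMap M M' (y : M) = algebraMap (𝓞 M') M' (algebraMap (𝓞 M) (𝓞 M') y) := by
    rfl
  rw [e2, HeightOneSpectrum.valuation_lt_one_iff_mem]

/-- The valuation of a prime above `w` is a positive power of that of `w`. -/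
theorem val_above {W : HeightOneSpectrum (𝓞 M')} {w : HeightOneSpectrum (𝓞 M)} (h : Above W w) :
    ∃ e : ℕ, e ≠ 0 ∧ ∀ x : M, W.valuation M' (algebraMap M M' x) = w.valuation M x ^ e := by
  have : W.asIdeal.LiesOver w.asIdeal := ⟨h.symm⟩
  exact ⟨w.asIdeal.ramificationIdx' W.asIdeal,
    Ideal.IsDedekindDomain.ramificationIdx'_ne_zero_of_liesOver W.asIdeal w.ne_bot,
    fun x => (HeightOneSpectrum.valuation_liesOver (K := M) M' w W x).symm⟩

/-- There is a prime above a given prime. -/
theorem exists_above (w : HeightOneSpectrum (𝓞 M)) :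
    ∃ W : HeightOneSpectrum (𝓞 M'), Above W w := by
  have hm : w.asIdeal.IsMaximal := w.isMaximal
  obtain ⟨Q, hQ1, hQ2⟩ := Ideal.exists_maximal_ideal_liesOver_of_isIntegral (S := 𝓞 M') w.asIdeal
  have hne : Q ≠ ⊥ := Ideal.ne_bot_of_liesOver_of_ne_bot w.ne_bot Q
  exact ⟨⟨Q, hQ1.isPrime, hne⟩, hQ2.over.symm⟩

/-- Primes of `M'` with the same valuation on `M` have the same prime below. -/
theorem bel_eq (U U' : HeightOneSpectrum (𝓞 M'))
    (h : ∀ x : M, U.valuation M' (algebraMap M M' x) = U'.valuation M' (algebraMap M M' x)) :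
    bel M U = bel M U' := by
  apply HeightOneSpectrum.ext
  show U.asIdeal.comap (algebraMap (𝓞 M) (𝓞 M')) = U'.asIdeal.comap (algebraMap (𝓞 M) (𝓞 M'))
  ext y
  rw [Ideal.mem_comap, Ideal.mem_comap, mem_iff', mem_iff', h]

end prim

theorem above_trans {K M F : Type} [Field K] [NumberField K] [Field M] [NumberField M] [Field F]
    [NumberField F] [Algebra K M] [Algebra M F] [Algebra K F] [IsScalarTower K M F]
    {P : HeightOneSpectrum (𝓞 F)} {W : HeightOneSpectrum (𝓞 M)} {v : HeightOneSpectrum (𝓞 K)}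
    (h1 : Above P W) (h2 : Above W v) : Above P v := by
  unfold Above at h1 h2 ⊢
  rw [← h2, ← h1]
  ext x
  rw [Ideal.mem_comap, Ideal.mem_comap, Ideal.mem_comap, mem_iff', mem_iff']
  have : algebraMap K F (x : K) = algebraMap M F (algebraMap (𝓞 K) (𝓞 M) x : 𝓞 M) := by
    rw [IsScalarTower.algebraMap_apply K M F]
    rfl
  rw [this]

/-- If `P` is above `W` and above `v` then `W` is above `v`. -/
theorem above_mid {K M F : Type} [Field K] [NumberField K] [Field M] [NumberField M] [Field F]
    [NumberField F] [Algebra K M] [Algebra M F] [Algebra K F] [IsScalarTower K M F]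
    {P : HeightOneSpectrum (𝓞 F)} {W : HeightOneSpectrum (𝓞 M)} {v : HeightOneSpectrum (𝓞 K)}
    (h1 : Above P W) (h2 : Above P v) : Above W v := by
  obtain ⟨v', hv'⟩ := exists_below (M := K) W
  have h3 := above_trans h1 hv'
  have : v' = v := by
    apply HeightOneSpectrum.ext
    unfold Above at h2 h3
    rw [← h3, ← h2]
  rwa [← this]

section core

variable {K L F : Type} [Field K] [NumberField K] [Field L] [NumberField L] [Field F]
  [NumberField F] [Algebra K L] [Algebra L F] [Algebra K F] [IsScalarTower K L F] [IsGalois K F]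
  [IsGalois K L]

/-- If the decomposition group in `Gal(F/K)` of a prime above `V` is trivial on `L` then the
decomposition group of `V` in `Gal(L/K)` is trivial. -/
theorem free_of_top (V : HeightOneSpectrum (𝓞 L)) (P : HeightOneSpectrum (𝓞 F)) (hPV : Above P V)
    (h : ∀ g : F ≃ₐ[K] F, (∀ x, P.valuation F (g x) = P.valuation F x) →
      ∀ x : L, g (algebraMap L F x) = algebraMap L F x) : FreeP K V := by
  intro g hg
  have hGF : IsGalois L F := IsGalois.tower_top_of_isGalois K L F
  obtain ⟨e, he, hval⟩ := val_above hPV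
  set g₁ : F ≃ₐ[K] F := AlgEquiv.liftNormal g F with hg₁
  have hg₁c : ∀ x : L, g₁ (algebraMap L F x) = algebraMap L F (g x) := by
    intro x
    exact AlgEquiv.liftNormal_commutes g F x
  obtain ⟨P', -, hP'⟩ := exists_pull (K := K) g₁ P
  have hbel : bel L P' = bel L P := by
    apply bel_eq
    intro x
    rw [← hP', hg₁c, hval, hg, ← hval]
  obtain ⟨k, hk⟩ := conj_of_bel (K := L) P' P hbel
  set k' : F ≃ₐ[K] F := k.restrictScalars K with hk'
  have hk'a : ∀ y, k' y = k y := fun y => rfl
  have h2 := h (g₁ * k') (by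
    intro x
    rw [AlgEquiv.mul_apply, hP', hk'a, hk])
  apply AlgEquiv.ext
  intro x
  apply (algebraMap L F).injective
  rw [← hg₁c, AlgEquiv.one_apply]
  have h3 := h2 x
  rw [AlgEquiv.mul_apply, hk'a, k.commutes] at h3
  exact h3

/-- If `P` is unramified over `v` then so is `V`. -/
theorem unr_of_top (V : HeightOneSpectrum (𝓞 L)) (P : HeightOneSpectrum (𝓞 F))
    (v : HeightOneSpectrum (𝓞 K)) (hPV : Above P V) (hVv : Above V v)
    (h : ∀ x : K, ordv P (algebraMap K F x) = ordv v x) (x : K) :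
    ordv V (algebraMap K L x) = ordv v x := by
  obtain ⟨e₁, he₁, hval₁⟩ := val_above hPV
  obtain ⟨e₂, he₂, hval₂⟩ := val_above hVv
  obtain ⟨π, hπ⟩ := v.valuation_exists_uniformizer K
  have h1 := h π
  unfold ordv at h1 ⊢
  rw [IsScalarTower.algebraMap_apply K L F, hval₁, hval₂, hπ, ← pow_mul, WithZero.log_pow] at h1
  have h2 : e₂ * e₁ = 1 := by
    rw [WithZero.log_exp] at h1
    have h3 : ((e₂ * e₁ : ℕ) : ℤ) = 1 := by
      simpa using h1
    exact_mod_cast h3
  have h3 : e₂ = 1 := Nat.eq_one_of_mul_eq_one_right h2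
  rw [hval₂, h3, pow_one]

end core

/-- The splitting and the ramification of `L`. -/
theorem lex_core (h1 : X_INE) (h4 : X_SPL) (h5 : X_UNR) (p : ℕ) [Fact p.Prime] (n : ℕ)
    (K E F L : Type) [Field K] [NumberField K] [Field E]
    [NumberField E] [Field F] [NumberField F] [Field L] [NumberField L] [Algebra K E] [Algebra E F]
    [Algebra K F] [IsScalarTower K E F] [Algebra K L] [Algebra L F] [IsScalarTower K L F]
    [IsGalois K L] (ξ b : E) (hK : Kum p n K E F ξ b)
    (hL : ∀ g : F ≃ₐ[K] F, (∀ i : ℕ, (∀ x : E, (g ^ i) (algebraMap E F x) = algebraMap E F x) →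
      g ^ i = 1) → ∀ x : L, g (algebraMap L F x) = algebraMap L F x)
    (v : HeightOneSpectrum (𝓞 K)) :
    ((∀ Q : HeightOneSpectrum (𝓞 E), Above Q v →
      Q.valuation E (b - 1) < Q.valuation E (p : E) ^ p ^ n) →
      ∀ V : HeightOneSpectrum (𝓞 L), Above V v → FreeP K V) ∧
    (v.valuation K (p : K) = 1 → (∀ Q : HeightOneSpectrum (𝓞 E), Above Q v →
      (p : ℤ) ^ n ∣ ordv Q b) → ∀ V : HeightOneSpectrum (𝓞 L), Above V v →
      ∀ x : K, ordv V (algebraMap K L x) = ordv v x) := by
  have hGE := hK.galE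
  have hGF := hK.galF
  constructor
  · intro hb V hV
    obtain ⟨P, hP⟩ := exists_above (M' := F) V
    refine free_of_top V P hP ?_
    intro g hg
    apply hL g
    refine h4 p n K E F ξ b hK P ?_ g hg
    intro σ
    obtain ⟨Q, hQ⟩ := exists_below (M := E) P
    have hQv : Above Q v := above_mid hQ (above_trans hP hV)
    obtain ⟨Q', -, hQ'⟩ := exists_pull (K := K) σ Q
    have hQ'v : Above Q' v := above_pull σ hQ' hQv
    obtain ⟨e, he, hval⟩ := val_above hQ
    have e1 : algebraMap E F (σ b) - 1 = algebraMap E F (σ (b - 1)) := by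
      rw [map_sub, map_sub, map_one, map_one]
    have e2 : (p : F) = algebraMap E F (σ (p : E)) := by
      rw [map_natCast, map_natCast]
    rw [e1, e2, hval, hval, hQ', hQ', ← pow_mul, mul_comm e, pow_mul]
    exact pow_lt_pow_left₀ (hb Q' hQ'v) zero_le he
  · intro hp hb V hV
    obtain ⟨P, hP⟩ := exists_above (M' := F) V
    have hPv := above_trans hP hV
    obtain ⟨Q, hQ⟩ := exists_below (M := E) P
    have hQv : Above Q v := above_mid hQ hPv
    obtain ⟨e, he, hval⟩ := val_above hQ
    obtain ⟨e', he', hval'⟩ := val_above hPv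
    refine unr_of_top V P v hP hV ?_
    refine h1 K F P v hPv ?_
    refine h5 p n K E F ξ b hK P ?_ ?_
    · have e2 : (p : F) = algebraMap K F (p : K) := by rw [map_natCast]
      rw [e2, hval', hp, one_pow]
    · intro σ
      obtain ⟨Q', -, hQ'⟩ := exists_pull (K := K) σ Q
      have hQ'v : Above Q' v := above_pull σ hQ' hQv
      obtain ⟨k, hk⟩ := hb Q' hQ'v
      obtain ⟨π, hπ⟩ := Q.valuation_exists_uniformizer E
      refine ⟨π ^ k, ?_⟩
      rw [hval, hval, ← pow_mul, mul_comm e, pow_mul]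
      congr 1
      rw [hQ', map_zpow₀, hπ]
      unfold ordv at hk
      have hb0 : Q'.valuation E b ≠ 0 := by
        rw [Valuation.ne_zero_iff]
        exact hK.ne
      have hk' : WithZero.log (Q'.valuation E b) = -((p : ℤ) ^ n * k) := by
        rw [← hk, neg_neg]
      have h6 : Q'.valuation E b = WithZero.exp (-((p : ℤ) ^ n * k)) := by
        rw [← hk', WithZero.exp_log hb0]
      rw [h6, ← WithZero.exp_zsmul, ← WithZero.exp_nsmul]
      congr 1
      simp only [smul_eq_mul, nsmul_eq_mul, Nat.cast_pow]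
      ring

end Pool.Agent.Helper96.RL
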