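import Pool.Agent.Helper35.RD.RSP
import Pool.Agent.Helper77.RL.Goals2

/-!
# Project RL: infinitely many extensions for one datum, with twists by characters of `p`-extensions
-/

namespace Pool.Agent.Helper96.RL

open NumberField Polynomial Module IsDedekindDomain TensorProduct Pool.Agent.Helper51.SigLeo
open Pool.Agent.Helper51.RP
open Pool.Agent.Helper42.RD (IsDat LocD Match TSet Tower E_TOW E_EXA E_KUM)
open Pool.Agent.Helper35.RD
open Pool.Agent.Helper77.RL (L_GOO L_INM Adm TwistAll)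

/-- **L_INM.** -/
theorem l_inm (h3 : E_TOW) (h5 : E_EXA) (h6 : E_KUM) (h7 : L_GOO) : L_INM := by
  intro p hpF K _ _ _ ιinf ιp Lg M _ _ hcop hnl R al hDat
  have hp : p.Prime := hpF.out
  have hpne : NeZero p := ⟨hp.ne_zero⟩
  have hMfin : FiniteDimensional K M := Module.Finite.of_restrictScalars_finite ℚ K M
  obtain ⟨ε, hε⟩ := HasEnoughRootsOfUnity.exists_primitiveRoot (AlgebraicClosure K) p
  set K₁ : IntermediateField K (AlgebraicClosure K) := IntermediateField.adjoin K {ε} with hK₁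
  have hεmem : ε ∈ K₁ := IntermediateField.mem_adjoin_simple_self K ε
  have hK₁fin : FiniteDimensional K K₁ :=
    IntermediateField.adjoin.finiteDimensional (Algebra.IsIntegral.isIntegral ε)
  have hcyc : IsCyclotomicExtension {p} K K₁ := 
    hε.intermediateField_adjoin_isCyclotomicExtension (K := K)
  have hK₁gal : IsGalois K K₁ := IsCyclotomicExtension.isGalois {p} K K₁
  set M₁ : IntermediateField K (AlgebraicClosure K) := M ⊔ K₁ with hM₁
  have hMM₁ : M ≤ M₁ := le_sup_left
  have hKM₁ : K₁ ≤ M₁ := le_sup_right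
  have hM₁fin : FiniteDimensional K M₁ := IntermediateField.finiteDimensional_sup M K₁
  have hM₁norm : Normal K M₁ := by rw [hM₁]; infer_instance
  have hM₁gal : IsGalois K M₁ := ⟨⟩
  have hnfK₁ : NumberField K₁ := NumberField.of_module_finite K K₁
  have hnfM₁ : NumberField M₁ := NumberField.of_module_finite K M₁
  let _ : Algebra M M₁ := (IntermediateField.inclusion hMM₁).toRingHom.toAlgebra
  let _ : Algebra K₁ M₁ := (IntermediateField.inclusion hKM₁).toRingHom.toAlgebra
  have ht1 : IsScalarTower K M M₁ := IsScalarTower.of_algebraMap_eq fun x => rfl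
  have ht2 : IsScalarTower K K₁ M₁ := IsScalarTower.of_algebraMap_eq fun x => rfl
  set ε₁ : K₁ := ⟨ε, hεmem⟩ with hε₁
  have hε₁p : IsPrimitiveRoot ε₁ p :=
    IsPrimitiveRoot.of_map_of_injective (f := K₁.val) hε K₁.val.injective
  have htow : Tower p K M K₁ M₁ ε₁ :=
    { prim := hε₁p
      gen := by
        intro σ hσ
        apply AlgEquiv.coe_toAlgHom_injective
        apply IntermediateField.adjoin_algHom_ext
        intro x hx
        obtain rfl := Set.mem_singleton_iff.1 hx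
        exact hσ
      cop := hcop
      lin := by
        intro g g1 g2
        apply eq_one_of_sup M K₁ g
        · intro x hx
          have : x = algebraMap M M₁ ⟨x, hx⟩ := rfl
          rw [this, g1]
        · intro x hx
          have : x = algebraMap K₁ M₁ ⟨x, hx⟩ := rfl
          rw [this, g2]
      nt := by
        have hpos : 0 < finrank K₁ M₁ := by
          have : FiniteDimensional K₁ M₁ := FiniteDimensional.right K K₁ M₁
          exact Module.finrank_pos
        by_contra hle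
        have h1 : finrank K₁ M₁ = 1 := by omega
        have h2 := Module.finrank_mul_finrank K K₁ M₁
        rw [h1, mul_one] at h2
        have h3 : K₁ = M₁ := IntermediateField.eq_of_le_of_finrank_eq hKM₁ h2
        apply hnl ε hε
        rw [← hK₁, h3]
        exact hMM₁ }
  obtain ⟨hg1, hg2, hc1, hc2, -, -⟩ := h3 p K M K₁ M₁ ε₁ htow
  intro hfin
  have hZ := hfin.biUnion fun N hN => badp_finite hp K₁ N hN.1 ε₁ hε₁p M₁
  obtain ⟨a, ha0, ha3, haom, hmat, W, hWZ, hWd⟩ := h5 p K M K₁ M₁ ε₁ htow R al hDat _ hZ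
  have hnpM : ∀ y : M₁, y ^ p ≠ algebraMap K₁ M₁ (a : K₁) := not_pow_of_not_dvd hp W hWd
  have hnpK : ∀ y : K₁, y ^ p ≠ (a : K₁) := by
    intro y hy
    apply hnpM (algebraMap K₁ M₁ y)
    rw [← map_pow, hy]
  obtain ⟨N, hNp, hNg, hNs⟩ := h6 p K ε hε ε₁ (a : K₁) rfl haom (by
    rintro ⟨y, hy⟩
    exact hnpK y hy)
  obtain ⟨s, hs⟩ := IsAlgClosed.exists_pow_nat_eq ((a : K₁) : AlgebraicClosure K) (n := p) hp.pos
  have hsN := hNs s hs
  set a' : 𝓞 M₁ := algebraMap (𝓞 K₁) (𝓞 M₁) a with ha'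
  have ha'c : (a' : M₁) = algebraMap K₁ M₁ (a : K₁) := rfl
  have hinj : Function.Injective (algebraMap (𝓞 K₁) (𝓞 M₁)) :=
    FaithfulSMul.algebraMap_injective (𝓞 K₁) (𝓞 M₁)
  refine hWZ (Set.mem_biUnion (x := N) ?_ ⟨(a : K₁), hnpK, ⟨s, hs, hsN⟩, hWd⟩)
  refine ⟨hNp, hNg, ?_⟩
  intro S hPC χ₀ hχ₀ δ Φ P hord hPhi hSel L _ _ hNL hAdm
  refine h7 p K ιinf ιp Lg S hPC M χ₀ hχ₀ hcop hnl δ Φ P hord hPhi R al hDat hSel M₁ hc1
    (algebraMap K₁ M₁ ε₁) a' ?_ ?_ ?_ ?_ (M₁.val : M₁ →+* AlgebraicClosure K) ?_ s ?_ ?_ N hNp ?_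
    L hNL hAdm
  · exact hε₁p.map_of_injective (algebraMap K₁ M₁).injective
  · rw [ha', Ne, map_eq_zero_iff _ hinj]
    exact ha0
  · obtain ⟨c, hc⟩ := ha3
    refine ⟨algebraMap (𝓞 K₁) (𝓞 M₁) c, ?_⟩
    rw [ha', ← map_one (algebraMap (𝓞 K₁) (𝓞 M₁)), ← map_sub, hc, map_mul, map_pow, map_natCast]
  · rw [ha'c]
    exact hmat
  · intro x
    rfl
  · exact hs
  · rintro ⟨y, hy⟩
    apply hnpM y
    apply Subtype.ext
    have hy' : (y : AlgebraicClosure K) = s := hy
    show (y : AlgebraicClosure K) ^ p = _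
    rw [hy', hs]
    rfl
  · intro g g1 g2
    have hle : (N ⊔ K₁).toSubalgebra ≤
        AlgHom.equalizer (g : AlgebraicClosure K →ₐ[K] AlgebraicClosure K) (AlgHom.id K _) := by
      rw [IntermediateField.sup_toSubalgebra_of_right]
      refine sup_le ?_ ?_
      · intro y hy
        exact g1 y hy
      · intro y hy
        exact g2 ⟨y, hKM₁ hy⟩
    exact hle hsN

end Pool.Agent.Helper96.RL
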