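import Pool.Agent.Helper96.RL.LEXCore
import Pool.Agent.Helper35.RD.RSP

/-!
# Project RL: cyclic extensions of degree `p^n` with local conditions (X_LEX)
-/

namespace Pool.Agent.Helper96.RL

open NumberField Polynomial Module IsDedekindDomain Pool.Agent.Helper51.SigLeo
open Pool.Agent.Helper51.RP
open Pool.Agent.Helper35.RD (eq_one_of_sup)
open Pool.Agent.Helper77.RL (Kum TowerN X_INE X_SPL X_UNR X_EXF X_PSI X_CHO X_LEX)

/-- An automorphism of `K(ξ)`, `ξ` of order `p^(m+1)`, which fixes `ξ^(p^m)` has order dividing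
`p^m`. -/
theorem aut_pow {K E : Type*} [Field K] [Field E] [Algebra K E] (p m : ℕ) (hp : p.Prime) (ξ : E)
    (hξ : IsPrimitiveRoot ξ (p ^ (m + 1))) (hgen : ∀ σ : E ≃ₐ[K] E, σ ξ = ξ → σ = 1)
    (σ : E ≃ₐ[K] E) (hσ : σ (ξ ^ p ^ m) = ξ ^ p ^ m) : σ ^ p ^ m = 1 := by
  have hne : NeZero (p ^ (m + 1)) := ⟨pow_ne_zero _ hp.ne_zero⟩
  have hξ' : IsPrimitiveRoot (ξ ^ p ^ m) p :=
    hξ.pow (pow_pos hp.pos _) (by rw [pow_succ])
  obtain ⟨i, -, hi⟩ := hξ.eq_pow_of_pow_eq_one (ξ := σ ξ) (by
    rw [← map_pow, hξ.pow_eq_one, map_one])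
  have hk : ∀ k : ℕ, (σ ^ k) ξ = ξ ^ i ^ k := by
    intro k
    induction k with
    | zero => rw [pow_zero, pow_zero, pow_one, AlgEquiv.one_apply]
    | succ k ih =>
      rw [pow_succ', AlgEquiv.mul_apply, ih, map_pow, ← hi, ← pow_mul, pow_succ']
  have hξ0 : ξ ≠ 0 := hξ.ne_zero hne.ne
  have h1 : (p : ℤ) ∣ (i : ℤ) - 1 := by
    rw [← hξ'.zpow_eq_one_iff_dvd, zpow_sub₀ (pow_ne_zero _ hξ0), zpow_natCast, zpow_one]
    rw [div_eq_one_iff_eq (pow_ne_zero _ hξ0)]
    rw [map_pow, ← hi] at hσ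
    rw [← pow_mul, mul_comm, pow_mul]
    exact hσ
  have h2 : (p : ℤ) ^ (m + 1) ∣ (i : ℤ) ^ p ^ m - 1 ^ p ^ m := dvd_sub_pow_of_dvd_sub h1 m
  apply hgen
  rw [hk]
  have h3 : ξ ^ ((i : ℤ) ^ p ^ m - 1) = 1 := by
    rw [hξ.zpow_eq_one_iff_dvd]
    rw [one_pow] at h2
    exact_mod_cast h2
  rw [zpow_sub₀ hξ0, zpow_one, div_eq_one_iff_eq hξ0] at h3
  exact_mod_cast h3

/-- If `M/K` has degree prime to `p` and `M ⊆ K(ξ)`, `ξ` of order `p^n`, then `M ⊆ K(ξ')` with `ξ'` of
order `p`. -/
theorem le_cyc {K Ω : Type*} [Field K] [Field Ω] [Algebra K Ω] (p n : ℕ) (hp : p.Prime)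
    (M E : IntermediateField K Ω) [FiniteDimensional K M] [IsGalois K M] [FiniteDimensional K E]
    [IsGalois K E] (hcop : (finrank K M).Coprime p) (ξ : E) (hξ : IsPrimitiveRoot ξ (p ^ n))
    (hgen : ∀ σ : E ≃ₐ[K] E, σ ξ = ξ → σ = 1) (hME : M ≤ E) (ζ : Ω) (hζ : IsPrimitiveRoot ζ p) :
    ∃ ξ' : Ω, IsPrimitiveRoot ξ' p ∧ M ≤ IntermediateField.adjoin K {ξ'} := by
  let _ : Algebra M E := (IntermediateField.inclusion hME).toRingHom.toAlgebra
  have ht : IsScalarTower K M E := IsScalarTower.of_algebraMap_eq fun x => rfl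
  cases n with
  | zero =>
    refine ⟨ζ, hζ, ?_⟩
    have h1 : ∀ σ : E ≃ₐ[K] E, σ = 1 := by
      intro σ
      apply hgen
      have : ξ = 1 := by
        have := hξ.pow_eq_one
        simpa using this
      rw [this, map_one]
    have h2 : (⊥ : IntermediateField K E) = ⊤ := by
      rw [← IsGalois.fixedField_fixingSubgroup (⊥ : IntermediateField K E)]
      rw [eq_top_iff]
      intro x _
      rw [IntermediateField.mem_fixedField_iff]
      intro σ _
      rw [h1 σ]
      rfl
    intro x hx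
    have h3 : (⟨x, hME hx⟩ : E) ∈ (⊥ : IntermediateField K E) := by
      rw [h2]
      trivial
    obtain ⟨y, hy⟩ := IntermediateField.mem_bot.1 h3
    have h4 : algebraMap K Ω y = x := congrArg Subtype.val hy
    rw [← h4]
    exact IntermediateField.algebraMap_mem _ y
  | succ m =>
    set ξ' : E := ξ ^ p ^ m with hξ'
    have hprim : IsPrimitiveRoot ξ' p := hξ.pow (pow_pos hp.pos _) (by rw [pow_succ])
    refine ⟨(ξ' : Ω), hprim.map_of_injective E.val.injective, ?_⟩
    intro x hx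
    have h1 : (⟨x, hME hx⟩ : E) ∈ IntermediateField.adjoin K {ξ'} := by
      rw [← IsGalois.fixedField_fixingSubgroup (IntermediateField.adjoin K {ξ'})]
      rw [IntermediateField.mem_fixedField_iff]
      intro σ hσ
      rw [IntermediateField.mem_fixingSubgroup_iff] at hσ
      have h2 : σ ^ p ^ m = 1 := aut_pow p m hp ξ hξ hgen σ
        (hσ ξ' (IntermediateField.mem_adjoin_simple_self K ξ'))
      set τ : M ≃ₐ[K] M := AlgEquiv.restrictNormalHom M σ with hτ
      have h3 : τ ^ p ^ m = 1 := by rw [hτ, ← map_pow, h2, map_one]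
      have h4 : orderOf τ ∣ p ^ m := orderOf_dvd_of_pow_eq_one h3
      have h5 : orderOf τ ∣ finrank K M := by
        rw [← IsGalois.card_aut_eq_finrank K M]
        exact orderOf_dvd_natCard τ
      have h6 : orderOf τ = 1 :=
        Nat.eq_one_of_dvd_coprimes (Nat.Coprime.pow_right m hcop) h5 h4
      have h7 : τ = 1 := orderOf_eq_one_iff.1 h6
      have h8 := AlgEquiv.restrictNormal_commutes σ M ⟨x, hx⟩
      have h9 : AlgEquiv.restrictNormal σ M = 1 := h7
      rw [h9, AlgEquiv.one_apply] at h8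
      exact h8.symm
    have h4 : x ∈ IntermediateField.lift (IntermediateField.adjoin K {ξ'}) :=
      (IntermediateField.mem_lift (⟨x, hME hx⟩ : E)).2 h1
    rw [IntermediateField.lift_adjoin_simple] at h4
    exact h4

/-- **X_LEX.** -/
theorem x_lex (h1 : X_INE) (h2 : X_EXF) (h3 : X_PSI) (h4 : X_SPL) (h5 : X_UNR) (h6 : X_CHO) :
    X_LEX := by
  intro p hpF n K _ _ _ M _ _ hcop hnl R hR
  have hp : p.Prime := hpF.out
  have hMfin : FiniteDimensional K M := Module.Finite.of_restrictScalars_finite ℚ K M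
  have hpne : NeZero p := ⟨hp.ne_zero⟩
  have hpne' : NeZero (p ^ n) := ⟨pow_ne_zero _ hp.ne_zero⟩
  obtain ⟨ζ, hζ⟩ := HasEnoughRootsOfUnity.exists_primitiveRoot (AlgebraicClosure K) p
  obtain ⟨ξ, hξ⟩ := HasEnoughRootsOfUnity.exists_primitiveRoot (AlgebraicClosure K) (p ^ n)
  set E : IntermediateField K (AlgebraicClosure K) := IntermediateField.adjoin K {ξ} with hE
  have hξmem : ξ ∈ E := IntermediateField.mem_adjoin_simple_self K ξ
  have hEfin : FiniteDimensional K E :=
    IntermediateField.adjoin.finiteDimensional (Algebra.IsIntegral.isIntegral ξ)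
  have hcyc : IsCyclotomicExtension {p ^ n} K E :=
    hξ.intermediateField_adjoin_isCyclotomicExtension (K := K)
  have hEgal : IsGalois K E := IsCyclotomicExtension.isGalois {p ^ n} K E
  set M₁ : IntermediateField K (AlgebraicClosure K) := M ⊔ E with hM₁
  have hMM₁ : M ≤ M₁ := le_sup_left
  have hEM₁ : E ≤ M₁ := le_sup_right
  have hM₁fin : FiniteDimensional K M₁ := IntermediateField.finiteDimensional_sup M E
  have hM₁norm : Normal K M₁ := by rw [hM₁]; infer_instance
  have hM₁gal : IsGalois K M₁ := ⟨⟩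
  have hnfE : NumberField E := NumberField.of_module_finite K E
  have hnfM₁ : NumberField M₁ := NumberField.of_module_finite K M₁
  let _ : Algebra M M₁ := (IntermediateField.inclusion hMM₁).toRingHom.toAlgebra
  let _ : Algebra E M₁ := (IntermediateField.inclusion hEM₁).toRingHom.toAlgebra
  have ht1 : IsScalarTower K M M₁ := IsScalarTower.of_algebraMap_eq fun x => rfl
  have ht2 : IsScalarTower K E M₁ := IsScalarTower.of_algebraMap_eq fun x => rfl
  set ξ₁ : E := ⟨ξ, hξmem⟩ with hξ₁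
  have hξ₁p : IsPrimitiveRoot ξ₁ (p ^ n) :=
    IsPrimitiveRoot.of_map_of_injective (f := E.val) hξ E.val.injective
  have hgen : ∀ σ : E ≃ₐ[K] E, σ ξ₁ = ξ₁ → σ = 1 := by
    intro σ hσ
    apply AlgEquiv.coe_toAlgHom_injective
    apply IntermediateField.adjoin_algHom_ext
    intro x hx
    obtain rfl := Set.mem_singleton_iff.1 hx
    exact hσ
  have htow : TowerN p n K M E M₁ ξ₁ :=
    { prim := hξ₁p
      gen := hgen
      cop := hcop
      lin := by
        intro g g1 g2
        apply eq_one_of_sup M E g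
        · intro x hx
          have : x = algebraMap M M₁ ⟨x, hx⟩ := rfl
          rw [this, g1]
        · intro x hx
          have : x = algebraMap E M₁ ⟨x, hx⟩ := rfl
          rw [this, g2]
      nt := by
        have hpos : 0 < finrank E M₁ := by
          have : FiniteDimensional E M₁ := FiniteDimensional.right K E M₁
          exact Module.finrank_pos
        by_contra hle
        have h7 : finrank E M₁ = 1 := by omega
        have h8 := Module.finrank_mul_finrank K E M₁
        rw [h7, mul_one] at h8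
        have h9 : E = M₁ := IntermediateField.eq_of_le_of_finrank_eq hEM₁ h8
        have h10 : M ≤ E := by
          rw [h9]
          exact hMM₁
        obtain ⟨ξ', hξ', hle'⟩ := le_cyc p n hp M E hcop ξ₁ hξ₁p hgen h10 ζ hζ
        exact hnl ξ' hξ' hle' }
  obtain ⟨b, Q₀, hb0, hbR, hQf, hQ1, hQ2, hbu⟩ := h6 p n K M E M₁ ξ₁ htow R hR
  have hb0' : (b : E) ≠ 0 := by
    intro h
    apply hb0
    exact RingOfIntegers.ext h
  obtain ⟨F, hEF, hFnf, hKum⟩ := h2 p n K E ξ₁ (b : E) hξ₁p hgen hb0'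
  let _ : Algebra E F := (IntermediateField.inclusion hEF).toRingHom.toAlgebra
  have ht3 : IsScalarTower K E F := IsScalarTower.of_algebraMap_eq fun x => rfl
  have hFfin : FiniteDimensional K F := Module.Finite.of_restrictScalars_finite ℚ K F
  obtain ⟨L₀, hL₀g, hL₀c, hL₀d, hL₀⟩ := h3 p n K E F ξ₁ (b : E) hKum Q₀ hQf hQ1 hQ2
  set L : IntermediateField K (AlgebraicClosure K) := IntermediateField.lift L₀ with hL
  set e : L₀ ≃ₐ[K] L := IntermediateField.liftAlgEquiv L₀ with he
  have hLfin : FiniteDimensional K L := e.toLinearEquiv.finiteDimensional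
  have hLnf : NumberField L := NumberField.of_module_finite K L
  have hLgal : IsGalois K L := IsGalois.of_algEquiv e
  have hLF : L ≤ F := IntermediateField.lift_le L₀
  let _ : Algebra L F := (IntermediateField.inclusion hLF).toRingHom.toAlgebra
  have ht4 : IsScalarTower K L F := IsScalarTower.of_algebraMap_eq fun x => rfl
  have hLtriv : ∀ g : F ≃ₐ[K] F, (∀ i : ℕ, (∀ x : E, (g ^ i) (algebraMap E F x) =
      algebraMap E F x) → g ^ i = 1) → ∀ x : L, g (algebraMap L F x) = algebraMap L F x := by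
    intro g hg x
    have h7 : (algebraMap L F x : F) ∈ L₀ := by
      rw [← IntermediateField.mem_lift]
      exact x.2
    exact hL₀ g hg ⟨_, h7⟩
  have hcore := fun v => lex_core h1 h4 h5 p n K E F L ξ₁ (b : E) hKum hLtriv v
  refine ⟨L, hLnf, hLgal, ?_, ?_, ?_, ?_⟩
  · exact isCyclic_of_injective (AlgEquiv.autCongr e).symm.toMonoidHom
      (AlgEquiv.autCongr e).symm.injective
  · rw [← hL₀d]
    exact e.toLinearEquiv.finrank_eq.symm
  · intro v hv V hV
    exact (hcore v).1 (fun Q hQ => hbR Q v hQ hv) V hV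
  · intro v hv hvp hw V hV x
    exact (hcore v).2 hvp (fun Q hQ => hbu Q v hQ hv hvp hw) V hV x

end Pool.Agent.Helper96.RL
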