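import Pool.Agent.Helper77.RL.Goals
import Pool.Agent.Helper2.RP.RAT
import Pool.Agent.Helper79.RP.HIL1

/-!
# Project RL (MP_fc6b1e_nt), packet RL-WGT: the weights

The proof uses the absolute values `x ↦ ‖τ x‖` and weak approximation instead of prime ideals.
-/

set_option autoImplicit false

namespace Pool.Agent.Helper96.RL

open NumberField Module Pool.Agent.Helper2.RP Pool.Agent.Helper77.RL

section approx

variable {p : ℕ} [hp : Fact p.Prime] {k : Type} [NormedField k] [NormedAlgebra ℚ_[p] k]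
  {H : Type} [Field H] [NumberField H]

include hp in
/-- Weak approximation for the absolute values given by the embeddings. -/
theorem approx (z : AbsoluteValue H ℝ → H) (ε : ℝ) (hε : 0 < ε) :
    ∃ y : H, ∀ τ : H →+* k, ‖τ (y - z (av τ))‖ < ε := by
  classical
  have : CharZero k := charZero_of_injective_algebraMap (algebraMap ℚ_[p] k).injective
  let I := Set.range (av : (H →+* k) → AbsoluteValue H ℝ)
  have hIfin : Finite I := (Set.finite_range _).to_subtype
  have h1 : ∀ i : I, (i : AbsoluteValue H ℝ).IsNontrivial := by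
    rintro ⟨_, τ, rfl⟩
    exact av_nontrivial (p := p) τ
  have h2 : Pairwise fun i j : I ↦ ¬ (i : AbsoluteValue H ℝ).IsEquiv (j : AbsoluteValue H ℝ) := by
    rintro ⟨_, τ, rfl⟩ ⟨_, σ, rfl⟩ hne he
    exact hne (Subtype.ext (av_eq_of_isEquiv (p := p) τ σ he))
  let w : (i : I) → WithAbs (i : AbsoluteValue H ℝ) := fun i ↦
    WithAbs.toAbs _ (z (i : AbsoluteValue H ℝ))
  obtain ⟨y, hy⟩ := (AbsoluteValue.denseRange_algebraMap_pi h1 h2).exists_dist_lt w hε
  refine ⟨y, fun τ ↦ ?_⟩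
  have h3 := (dist_le_pi_dist w (algebraMap H ((i : I) → WithAbs (i : AbsoluteValue H ℝ)) y)
    ⟨av τ, τ, rfl⟩).trans_lt hy
  rw [dist_comm, dist_eq_norm] at h3
  have h5 : algebraMap H ((i : I) → WithAbs (i : AbsoluteValue H ℝ)) y ⟨av τ, τ, rfl⟩ -
      w ⟨av τ, τ, rfl⟩ = WithAbs.toAbs (av τ) (y - z (av τ)) := by
    change WithAbs.toAbs (av τ) y - WithAbs.toAbs (av τ) (z (av τ)) = _
    simp only [WithAbs.toAbs_sub]
  rw [h5, WithAbs.norm_toAbs_eq, av_apply] at h3
  exact h3

end approx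

section gal

variable {p : ℕ} [hp : Fact p.Prime] {k : Type} [NormedField k] [NormedAlgebra ℚ_[p] k]
  {M M' : Type} [Field M] [Field M'] [NumberField M'] [Algebra M M'] [FiniteDimensional M M']
  [IsGalois M M']

/-- the composition with an automorphism -/
def cmp (τ : M' →+* k) (g : M' ≃ₐ[M] M') : M' →+* k := τ.comp (g : M' →+* M')

omit [NumberField M'] [FiniteDimensional M M'] [IsGalois M M'] in
theorem cmp_apply (τ : M' →+* k) (g : M' ≃ₐ[M] M') (x : M') : cmp τ g x = τ (g x) := rfl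

omit [NumberField M'] [FiniteDimensional M M'] [IsGalois M M'] in
theorem cmp_comp (τ : M' →+* k) (g : M' ≃ₐ[M] M') :
    (cmp τ g).comp (algebraMap M M') = τ.comp (algebraMap M M') := by
  ext x
  rw [RingHom.comp_apply, cmp_apply, AlgEquiv.commutes, RingHom.comp_apply]

include hp in
/-- The absolute values above a given one are conjugate. -/
theorem trans (τ ρ : M' →+* k)
    (h : av (τ.comp (algebraMap M M')) = av (ρ.comp (algebraMap M M'))) :
    ∃ g : M' ≃ₐ[M] M', av (cmp τ g) = av ρ := by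
  classical
  by_contra hcon
  push Not at hcon
  obtain ⟨y, hy⟩ := approx (p := p) (k := k)
    (fun i : AbsoluteValue M' ℝ ↦ if ∃ g : M' ≃ₐ[M] M', i = av (cmp ρ g) then 0 else 1)
    (1 / 3) (by norm_num)
  have h1 : ∀ g : M' ≃ₐ[M] M', ‖ρ (g y)‖ ≤ 1 / 3 := by
    intro g
    have := hy (cmp ρ g)
    rw [if_pos ⟨g, rfl⟩, sub_zero, cmp_apply] at this
    exact this.le
  have h2 : ∀ g : M' ≃ₐ[M] M', 2 / 3 ≤ ‖τ (g y)‖ := by
    intro g
    have := hy (cmp τ g)
    rw [if_neg, cmp_apply, map_sub, map_one, map_sub, map_one] at this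
    · have h3 := norm_sub_norm_le (1 : k) (1 - τ (g y))
      have h4 : ‖(1 : k) - τ (g y)‖ < 1 / 3 := by rwa [norm_sub_rev]
      rw [norm_one, sub_sub_cancel] at h3
      linarith
    · rintro ⟨h, hh⟩
      apply hcon (h⁻¹.trans g)
      ext x
      have h5 := DFunLike.congr_fun hh (h⁻¹ x)
      rw [av_apply, av_apply, cmp_apply, cmp_apply] at h5
      rw [av_apply, av_apply, cmp_apply]
      change ‖τ (g (h⁻¹ x))‖ = _
      rw [h5]
      congr 2
      exact AlgEquiv.apply_symm_apply h x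
  have h3 : ∀ σ : M' →+* k, ‖σ (algebraMap M M' (Algebra.norm M y))‖ =
      ∏ g : M' ≃ₐ[M] M', ‖σ (g y)‖ := by
    intro σ
    rw [Algebra.norm_eq_prod_automorphisms, map_prod, norm_prod]
  have h4 : ‖ρ (algebraMap M M' (Algebra.norm M y))‖ ≤ (1 / 3) ^ Fintype.card (M' ≃ₐ[M] M') := by
    rw [h3]
    calc ∏ g : M' ≃ₐ[M] M', ‖ρ (g y)‖ ≤ ∏ g : M' ≃ₐ[M] M', (1 / 3 : ℝ) :=
          Finset.prod_le_prod (fun g _ ↦ norm_nonneg _) (fun g _ ↦ h1 g)
      _ = _ := by rw [Finset.prod_const, Finset.card_univ]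
  have h5 : (2 / 3) ^ Fintype.card (M' ≃ₐ[M] M') ≤ ‖τ (algebraMap M M' (Algebra.norm M y))‖ := by
    rw [h3]
    calc (2 / 3 : ℝ) ^ Fintype.card (M' ≃ₐ[M] M') = ∏ g : M' ≃ₐ[M] M', (2 / 3 : ℝ) := by
          rw [Finset.prod_const, Finset.card_univ]
      _ ≤ _ := Finset.prod_le_prod (fun g _ ↦ by norm_num) (fun g _ ↦ h2 g)
  have h6 : ‖τ (algebraMap M M' (Algebra.norm M y))‖ =
      ‖ρ (algebraMap M M' (Algebra.norm M y))‖ :=
    DFunLike.congr_fun h (Algebra.norm M y)
  have h7 : (1 / 3 : ℝ) ^ Fintype.card (M' ≃ₐ[M] M') < (2 / 3) ^ Fintype.card (M' ≃ₐ[M] M') :=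
    pow_lt_pow_left₀ (by norm_num) (by norm_num) Fintype.card_ne_zero
  linarith

end gal

/-- Packet RL-WGT. -/
theorem l_wgt : L_WGT := by
  intro p _ k _ _ _ hι M M' _ _ _ _ _ _ n hn A B hA ε hε
  classical
  have : CharZero k := charZero_of_injective_algebraMap (algebraMap ℚ_[p] k).injective
  have hfd : FiniteDimensional M M' := by
    apply FiniteDimensional.of_finrank_pos
    rw [hn]
    have := (Fact.out : p.Prime).pos
    positivity
  have hext : ∀ τ : M →+* k, ∃ τ' : M' →+* k, τ'.comp (algebraMap M M') = τ := fun τ ↦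
    Pool.Agent.Helper79.RP.ext_emb hι τ
  choose ex hex using hext
  -- the chosen absolute value above the absolute value of an element of `A`
  have hc : ∀ v : AbsoluteValue M ℝ, ∃ w : AbsoluteValue M' ℝ, (∃ σ ∈ A, av σ = v) →
      ∃ σ ∈ A, av σ = v ∧ w = av (ex σ) := by
    intro v
    by_cases h : ∃ σ ∈ A, av σ = v
    · obtain ⟨σ, hσ, h⟩ := h
      exact ⟨av (ex σ), fun _ ↦ ⟨σ, hσ, h, rfl⟩⟩
    · exact ⟨AbsoluteValue.trivial, fun h' ↦ absurd h' h⟩
  choose c hc using hc
  have hinj : Function.Injective (algebraMap M M') := (algebraMap M M').injective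
  have hres : ∀ τ' : M' →+* k, (av τ').comp hinj = av (τ'.comp (algebraMap M M')) := fun τ' ↦ by
    ext x; rfl
  let z : AbsoluteValue M' ℝ → M' := fun i ↦
    if ∃ σ ∈ A, av σ = i.comp hinj then (if i = c (i.comp hinj) then 1 else 0)
    else ((p : M') ^ n)⁻¹
  obtain ⟨E, hE⟩ := approx (p := p) (k := k) z ε hε
  refine ⟨E, fun τ hτ ↦ ?_⟩
  by_cases hv : ∃ σ ∈ A, av σ = av τ
  · right
    obtain ⟨σ, hσA, hσ, hw⟩ := hc (av τ) hv
    obtain ⟨g0, hg0⟩ := trans (p := p) (ex τ) (ex σ) (by rw [hex, hex]; exact hσ.symm)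
    have hcomp : (cmp (ex τ) g0).comp (algebraMap M M') = τ := by rw [cmp_comp, hex]
    refine ⟨cmp (ex τ) g0, hcomp, ?_, ?_⟩
    · have h1 := hE (cmp (ex τ) g0)
      have h2 : z (av (cmp (ex τ) g0)) = 1 := by
        change (if ∃ σ ∈ A, av σ = (av (cmp (ex τ) g0)).comp hinj then
          (if av (cmp (ex τ) g0) = c ((av (cmp (ex τ) g0)).comp hinj) then (1 : M') else 0)
          else ((p : M') ^ n)⁻¹) = 1
        rw [hres, hcomp, if_pos hv, if_pos (by rw [hw, hg0])]
      rw [h2, map_sub, map_one] at h1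
      exact h1.le
    · intro g hg
      have h1 := hE (cmp (cmp (ex τ) g0) g)
      have hcomp' : (cmp (cmp (ex τ) g0) g).comp (algebraMap M M') = τ := by rw [cmp_comp, hcomp]
      have h2 : z (av (cmp (cmp (ex τ) g0) g)) = 0 := by
        change (if ∃ σ ∈ A, av σ = (av (cmp (cmp (ex τ) g0) g)).comp hinj then
          (if av (cmp (cmp (ex τ) g0) g) = c ((av (cmp (cmp (ex τ) g0) g)).comp hinj) then
            (1 : M') else 0)
          else ((p : M') ^ n)⁻¹) = 0
        rw [hres, hcomp', if_pos hv, if_neg]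
        rw [hw]
        intro h3
        apply hg
        apply hA (ex σ) (by rw [hex]; exact hσA) g
        intro x
        have h4 := DFunLike.congr_fun hg0 (g x)
        have h5 := DFunLike.congr_fun h3 x
        rw [av_apply, av_apply] at h4 h5
        rw [← h4, ← h5]
        rfl
      rw [h2, sub_zero, cmp_apply] at h1
      exact h1.le
  · left
    refine ⟨?_, fun τ' hτ' ↦ ?_⟩
    · rcases hτ with h | h
      · exact absurd ⟨τ, h, rfl⟩ hv
      · exact h
    · have h1 := hE τ'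
      have h2 : z (av τ') = ((p : M') ^ n)⁻¹ := by
        change (if ∃ σ ∈ A, av σ = (av τ').comp hinj then
          (if av τ' = c ((av τ').comp hinj) then (1 : M') else 0)
          else ((p : M') ^ n)⁻¹) = _
        rw [hres, hτ', if_neg hv]
      rw [h2, map_sub, map_inv₀, map_pow, map_natCast] at h1
      exact h1.le

end Pool.Agent.Helper96.RL
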