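import Mathlib
import Pool.Agent.Helper18.RL.Goals

set_option autoImplicit false

namespace Pool.Agent.Helper96.RL

open Finset Pool.Agent.Helper37.RG3 Pool.Agent.Helper18.RL

theorem galt_aux {V : Type} [Fintype V] [DecidableEq V] (R : V → V → Prop)
    (hR : ∀ x, ¬ R x x) (n : ℕ) : ∀ (P₁ P₂ : Finset V) (m₁ m₂ : V → V) (a b : V),
    P₁.card + P₂.card ≤ n → MT R P₁ m₁ → MT R P₂ m₂ →
    a ∈ P₁ → a ∉ P₂ → a ≠ b → (∀ v, v ≠ a → v ≠ b → (v ∈ P₁ ↔ v ∈ P₂)) →
    ((b ∈ P₁ ∧ b ∉ P₂) ∨ (b ∉ P₁ ∧ b ∈ P₂)) →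
    ∃ Q, Pth R Q a b ∧ Q ⊆ P₁ ∪ P₂ ∧ m₁ a ∈ Q ∧
      ((b ∈ P₁ ∧ Even Q.card) ∨ (b ∈ P₂ ∧ Odd Q.card)) := by
  induction n with
  | zero =>
    intro P₁ P₂ m₁ m₂ a b hn _ _ ha
    have : 0 < P₁.card := card_pos.mpr ⟨a, ha⟩
    omega
  | succ n ih =>
    intro P₁ P₂ m₁ m₂ a b hn h1 h2 ha1 ha2 hab hv hb
    obtain ⟨ha'1, hinv, hadj⟩ := h1 a ha1
    have hne : m₁ a ≠ a := fun h => hR a (by rw [h] at hadj; exact hadj)
    by_cases hab' : m₁ a = b
    · have hb1 : b ∈ P₁ := hab' ▸ ha'1
      refine ⟨{a, b}, ?_, ?_, ?_, Or.inl ⟨hb1, ?_⟩⟩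
      · exact Pth.cons (hab' ▸ hadj) (by simpa using hab) (Pth.one b)
      · intro x hx
        rw [mem_insert, mem_singleton] at hx
        rcases hx with rfl | rfl
        · exact mem_union_left _ ha1
        · exact mem_union_left _ hb1
      · rw [hab']
        simp
      · rw [card_pair hab]
        decide
    · have ha'2 : m₁ a ∈ P₂ := (hv _ hne hab').mp ha'1
      have hMT : MT R (P₁ \ {a, m₁ a}) m₁ := by
        intro v hv'
        rw [mem_sdiff, mem_insert, mem_singleton, not_or] at hv'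
        obtain ⟨hvP, hva, hva'⟩ := hv'
        obtain ⟨k1, k2, k3⟩ := h1 v hvP
        refine ⟨?_, k2, k3⟩
        rw [mem_sdiff, mem_insert, mem_singleton, not_or]
        refine ⟨k1, ?_, ?_⟩
        · intro h
          apply hva'
          rw [← h, k2]
        · intro h
          apply hva
          rw [← k2, h, hinv]
      have hcard : P₂.card + (P₁ \ {a, m₁ a}).card ≤ n := by
        have : (P₁ \ {a, m₁ a}).card < P₁.card := by
          apply card_lt_card
          refine ⟨sdiff_subset, fun h => ?_⟩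
          have := h ha1
          rw [mem_sdiff] at this
          exact this.2 (by simp)
        omega
      obtain ⟨Q', hQ1, hQ2, hQ3, hQ4⟩ := ih P₂ (P₁ \ {a, m₁ a}) m₂ m₁ (m₁ a) b hcard h2 hMT
        ha'2 (by simp) hab' (by
          intro v h3 h4
          by_cases hva : v = a
          · subst hva
            simp [ha2]
          · rw [← hv v hva h4, mem_sdiff, mem_insert, mem_singleton, not_or]
            tauto) (by
          rw [mem_sdiff, mem_insert, mem_singleton, not_or]
          have e1 : b ≠ a := hab.symm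
          have e2 : b ≠ m₁ a := fun h => hab' h.symm
          tauto)
      have haQ : a ∉ Q' := by
        intro h
        rcases mem_union.mp (hQ2 h) with h | h
        · exact ha2 h
        · rw [mem_sdiff] at h
          exact h.2 (by simp)
      refine ⟨insert a Q', Pth.cons hadj haQ hQ1, ?_, mem_insert_of_mem hQ1.left_mem, ?_⟩
      · intro x hx
        rcases mem_insert.mp hx with rfl | hx
        · exact mem_union_left _ ha1
        · rcases mem_union.mp (hQ2 hx) with h | h
          · exact mem_union_right _ h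
          · exact mem_union_left _ (mem_sdiff.mp h).1
      · rw [card_insert_of_notMem haQ]
        rcases hQ4 with ⟨h, h'⟩ | ⟨h, h'⟩
        · exact Or.inr ⟨h, h'.add_one⟩
        · exact Or.inl ⟨(mem_sdiff.mp h).1, h'.add_one⟩

theorem galt : G_ALT := by
  intro V _ _ R P₁ P₂ m₁ m₂ a b hR h1 h2 ha1 ha2 hab hv hb
  exact galt_aux R hR _ P₁ P₂ m₁ m₂ a b le_rfl h1 h2 ha1 ha2 hab hv hb

end Pool.Agent.Helper96.RL
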